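import Pool.Agent.N204.HR.Stm4

/-!
# Project HR (helper204), task PD (helper700): the primitive decomposition
-/

set_option autoImplicit false

namespace Pool.Agent.N700.HR

open Module
open Pool.Agent.N204.HR (IsPr IsHL S_PD)

section

variable {K V : Type} [Field K] [AddCommGroup V] [Module K V] {gr : ℕ → Submodule K V}
  {l : Module.End K V} {d : ℕ}

theorem isPr_zero (r i : ℕ) : IsPr gr l d r i 0 := Or.inl rfl

theorem isPr_add {r i : ℕ} {a b : V} (ha : IsPr gr l d r i a) (hb : IsPr gr l d r i b) :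
    IsPr gr l d r i (a + b) := by
  rcases ha with rfl | ⟨j, h1, h2, h3, h4⟩
  · rwa [zero_add]
  · rcases hb with rfl | ⟨j', h1', h2', h3', h4'⟩
    · rw [add_zero]
      exact Or.inr ⟨j, h1, h2, h3, h4⟩
    · have hj : j' = j := by omega
      subst hj
      exact Or.inr ⟨j', h1, h2, (gr j').add_mem h3 h3', by rw [map_add, h4, h4', add_zero]⟩

theorem isPr_smul {r i : ℕ} {a : V} (t : K) (ha : IsPr gr l d r i a) :
    IsPr gr l d r i (t • a) := by
  rcases ha with rfl | ⟨j, h1, h2, h3, h4⟩
  · rw [smul_zero]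
    exact isPr_zero r i
  · exact Or.inr ⟨j, h1, h2, (gr j).smul_mem t h3, by rw [map_smul, h4, smul_zero]⟩

theorem isPr_sub {r i : ℕ} {a b : V} (ha : IsPr gr l d r i a) (hb : IsPr gr l d r i b) :
    IsPr gr l d r i (a - b) := by
  have h := isPr_add ha (isPr_smul (-1 : K) hb)
  rwa [neg_smul, one_smul, ← sub_eq_add_neg] at h

theorem isPr_big {r i : ℕ} {a : V} (ha : IsPr gr l d r i a) (hr : d < r) : a = 0 := by
  rcases ha with h | ⟨j, _, h2, _⟩
  · exact h
  · omega

/-- the elements with a decomposition -/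
def Dc (gr : ℕ → Submodule K V) (l : Module.End K V) (d i : ℕ) (x : V) : Prop :=
  ∃ a : ℕ → V, (∀ r, IsPr gr l d r i (a r)) ∧ x = ∑ r ∈ Finset.range (d + 1), (l ^ r) (a r)

theorem Dc_zero (i : ℕ) : Dc gr l d i 0 :=
  ⟨fun _ => 0, fun r => isPr_zero r i, by simp⟩

theorem Dc_add {i : ℕ} {x y : V} (hx : Dc gr l d i x) (hy : Dc gr l d i y) :
    Dc gr l d i (x + y) := by
  obtain ⟨a, ha, rfl⟩ := hx
  obtain ⟨b, hb, rfl⟩ := hy
  refine ⟨fun r => a r + b r, fun r => isPr_add (ha r) (hb r), ?_⟩
  simp only [map_add, Finset.sum_add_distrib]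

theorem Dc_sum {i : ℕ} (s : Finset ℕ) (x : ℕ → V) (h : ∀ r ∈ s, Dc gr l d i (x r)) :
    Dc gr l d i (∑ r ∈ s, x r) := by
  classical
  induction s using Finset.induction_on with
  | empty =>
    rw [Finset.sum_empty]
    exact Dc_zero i
  | insert r s hr ih =>
    rw [Finset.sum_insert hr]
    exact Dc_add (h r (Finset.mem_insert_self _ _))
      (ih fun q hq => h q (Finset.mem_insert_of_mem hq))

theorem Dc_single {r i : ℕ} {a : V} (ha : IsPr gr l d r i a) : Dc gr l d i ((l ^ r) a) := by
  classical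
  by_cases hr : d < r
  · rw [isPr_big ha hr, map_zero]
    exact Dc_zero i
  · refine ⟨fun q => if q = r then a else 0, fun q => ?_, ?_⟩
    · dsimp only
      by_cases hq : q = r
      · rw [if_pos hq, hq]
        exact ha
      · rw [if_neg hq]
        exact isPr_zero q i
    · dsimp only
      rw [Finset.sum_eq_single r]
      · rw [if_pos rfl]
      · intro q _ hq
        rw [if_neg hq, map_zero]
      · intro h
        exact absurd (Finset.mem_range.2 (by omega)) h

theorem pow_zero_of_le {m n : ℕ} {a : V} (h : (l ^ m) a = 0) (hmn : m ≤ n) : (l ^ n) a = 0 := by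
  obtain ⟨k, rfl⟩ := Nat.exists_eq_add_of_le hmn
  rw [add_comm, pow_add, Module.End.mul_apply, h, map_zero]

theorem Dc_l {i : ℕ} {x : V} (hx : Dc gr l d i x) : Dc gr l d (i + 2) (l x) := by
  obtain ⟨a, ha, rfl⟩ := hx
  rw [map_sum]
  refine Dc_sum _ _ fun r _ => ?_
  have h1 : l ((l ^ r) (a r)) = (l ^ (r + 1)) (a r) := by
    rw [pow_succ', Module.End.mul_apply]
  rw [h1]
  rcases ha r with h | ⟨j, h2, h3, h4, h5⟩
  · rw [h, map_zero]
    exact Dc_zero _
  · by_cases h6 : j + (r + 1) ≤ d
    · exact Dc_single (Or.inr ⟨j, by omega, h6, h4, h5⟩)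
    · rw [pow_zero_of_le h5 (by omega)]
      exact Dc_zero _

theorem Dc_pow {i : ℕ} {x : V} (hx : Dc gr l d i x) (t : ℕ) :
    Dc gr l d (i + 2 * t) ((l ^ t) x) := by
  induction t with
  | zero => simpa using hx
  | succ t ih =>
    rw [pow_succ', Module.End.mul_apply]
    exact Dc_l ih

theorem deg_pow (H : IsHL gr l d) {i : ℕ} {x : V} (hx : x ∈ gr i) (t : ℕ) :
    (l ^ t) x ∈ gr (i + 2 * t) := by
  induction t with
  | zero => simpa using hx
  | succ t ih =>
    rw [pow_succ', Module.End.mul_apply]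
    exact H.deg _ _ ih

theorem surj [Module.Finite K V] (H : IsHL gr l d) {i : ℕ} (hi : i ≤ d) {z : V}
    (hz : z ∈ gr (2 * d - i)) : ∃ y ∈ gr i, (l ^ (d - i)) y = z := by
  have hmap : ∀ x ∈ gr i, (l ^ (d - i)) x ∈ gr (2 * d - i) := by
    intro x hx
    have h1 := deg_pow H hx (d - i)
    have h2 : i + 2 * (d - i) = 2 * d - i := by omega
    rwa [h2] at h1
  let f : gr i →ₗ[K] gr (2 * d - i) := LinearMap.restrict (l ^ (d - i)) hmap
  have hinj : Function.Injective f := by
    rw [← LinearMap.ker_eq_bot, LinearMap.ker_eq_bot']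
    intro x hx
    have h1 : (l ^ (d - i)) (x : V) = 0 := congrArg Subtype.val hx
    exact Subtype.ext (H.inj i hi _ x.2 h1)
  have hsurj : Function.Surjective f :=
    (LinearMap.injective_iff_surjective_of_finrank_eq_finrank (H.rank i hi)).1 hinj
  obtain ⟨y, hy⟩ := hsurj ⟨z, hz⟩
  exact ⟨y, y.2, congrArg Subtype.val hy⟩

theorem ex_low [Module.Finite K V] (H : IsHL gr l d) : ∀ i ≤ d, ∀ x ∈ gr i, Dc gr l d i x := by
  intro i
  induction i using Nat.strong_induction_on with
  | _ i ih =>
    intro hi x hx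
    by_cases h2 : i < 2
    · have h3 : IsPr gr l d 0 i x := by
        refine Or.inr ⟨i, by omega, by omega, hx, ?_⟩
        have h4 := deg_pow H hx (d - i + 1)
        rw [H.bot _ (by omega)] at h4
        exact (Submodule.mem_bot K).1 h4
      have h5 := Dc_single h3
      simpa using h5
    · have h3 := deg_pow H hx (d - i + 1)
      have e1 : i + 2 * (d - i + 1) = 2 * d - (i - 2) := by omega
      rw [e1] at h3
      obtain ⟨x', hx', hxx⟩ := surj H (i := i - 2) (by omega) h3
      have e2 : d - (i - 2) = (d - i + 1) + 1 := by omega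
      rw [e2, pow_succ, Module.End.mul_apply] at hxx
      have h4 : l x' ∈ gr i := by
        have := H.deg _ _ hx'
        have e3 : i - 2 + 2 = i := by omega
        rwa [e3] at this
      have h5 : IsPr gr l d 0 i (x - l x') := by
        refine Or.inr ⟨i, by omega, by omega, (gr i).sub_mem hx h4, ?_⟩
        rw [map_sub, hxx, sub_self]
      have h6 := Dc_single h5
      rw [pow_zero, Module.End.one_apply] at h6
      have h7 := Dc_l (ih (i - 2) (by omega) (by omega) x' hx')
      have e3 : i - 2 + 2 = i := by omega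
      rw [e3] at h7
      have h8 := Dc_add h6 h7
      rwa [sub_add_cancel] at h8

theorem ex [Module.Finite K V] (H : IsHL gr l d) (i : ℕ) (x : V) (hx : x ∈ gr i) :
    Dc gr l d i x := by
  by_cases h1 : i ≤ d
  · exact ex_low H i h1 x hx
  · by_cases h2 : i ≤ 2 * d
    · have e1 : 2 * d - (2 * d - i) = i := by omega
      obtain ⟨y, hy, rfl⟩ := surj H (i := 2 * d - i) (by omega) (z := x) (by rwa [e1])
      have h3 := Dc_pow (ex_low H (2 * d - i) (by omega) y hy) (d - (2 * d - i))
      have e2 : 2 * d - i + 2 * (d - (2 * d - i)) = i := by omega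
      rwa [e2] at h3
    · rw [H.bot i (by omega)] at hx
      rw [(Submodule.mem_bot K).1 hx]
      exact Dc_zero i

theorem uniq (H : IsHL gr l d) (i : ℕ) (a : ℕ → V) (ha : ∀ r, IsPr gr l d r i (a r))
    (h0 : ∑ r ∈ Finset.range (d + 1), (l ^ r) (a r) = 0) : ∀ r ≤ d, a r = 0 := by
  classical
  by_contra hc
  push Not at hc
  obtain ⟨r0, hr0, hr0'⟩ := hc
  set S : Finset ℕ := (Finset.range (d + 1)).filter (fun r => a r ≠ 0) with hS
  have hne : S.Nonempty := ⟨r0, Finset.mem_filter.2 ⟨Finset.mem_range.2 (by omega), hr0'⟩⟩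
  set s : ℕ := S.max' hne with hs
  have hsS : s ∈ S := S.max'_mem hne
  rw [hS, Finset.mem_filter, Finset.mem_range] at hsS
  obtain ⟨hsd, hs0⟩ := hsS
  have hmax : ∀ r, r < d + 1 → a r ≠ 0 → r ≤ s := by
    intro r h1 h2
    exact S.le_max' r (Finset.mem_filter.2 ⟨Finset.mem_range.2 h1, h2⟩)
  rcases ha s with h | ⟨j, h1, h2, h3, h4⟩
  · exact hs0 h
  · have h5 := congrArg (l ^ (d - j - s)) h0
    rw [map_zero, map_sum, Finset.sum_eq_single s] at h5
    · rw [← Module.End.mul_apply, ← pow_add] at h5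
      have e1 : d - j - s + s = d - j := by omega
      rw [e1] at h5
      exact hs0 (H.inj j (by omega) _ h3 h5)
    · intro r hr hrs
      rw [Finset.mem_range] at hr
      rcases ha r with h | ⟨j', h1', h2', h3', h4'⟩
      · rw [h, map_zero, map_zero]
      · by_cases har : a r = 0
        · rw [har, map_zero, map_zero]
        · have h6 := hmax r hr har
          rw [← Module.End.mul_apply, ← pow_add]
          exact pow_zero_of_le h4' (by omega)
    · intro h
      exact absurd (Finset.mem_range.2 hsd) h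

theorem uniq2 (H : IsHL gr l d) (i : ℕ) (a b : ℕ → V) (ha : ∀ r, IsPr gr l d r i (a r))
    (hb : ∀ r, IsPr gr l d r i (b r))
    (h0 : ∑ r ∈ Finset.range (d + 1), (l ^ r) (a r) = ∑ r ∈ Finset.range (d + 1), (l ^ r) (b r)) :
    a = b := by
  funext r
  by_cases hr : r ≤ d
  · have h1 := uniq H i (fun r => a r - b r) (fun r => isPr_sub (ha r) (hb r)) (by
      simp only [map_sub, Finset.sum_sub_distrib, h0, sub_self]) r hr
    exact sub_eq_zero.1 h1
  · rw [isPr_big (ha r) (by omega), isPr_big (hb r) (by omega)]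

end

theorem pd : S_PD := by
  classical
  intro K V _ _ _ _ gr l d H
  refine ⟨?_, fun i a ha h0 => uniq H i a ha h0⟩
  have hex : ∀ i, ∀ x : gr i, Dc gr l d i (x : V) := fun i x => ex H i x x.2
  choose A hA1 hA2 using hex
  let cc : ℕ → ∀ i : ℕ, gr i →ₗ[K] V := fun r i =>
    { toFun := fun x => A i x r
      map_add' := by
        intro x y
        have h1 := uniq2 H i (A i (x + y)) (fun r => A i x r + A i y r) (hA1 i (x + y))
          (fun r => isPr_add (hA1 i x r) (hA1 i y r)) (by
            rw [← hA2 i (x + y)]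
            simp only [map_add, Finset.sum_add_distrib]
            rw [← hA2 i x, ← hA2 i y, Submodule.coe_add])
        exact congrFun h1 r
      map_smul' := by
        intro t x
        have h1 := uniq2 H i (A i (t • x)) (fun r => t • A i x r) (hA1 i (t • x))
          (fun r => isPr_smul t (hA1 i x r)) (by
            rw [← hA2 i (t • x)]
            simp only [map_smul, ← Finset.smul_sum]
            rw [← hA2 i x, Submodule.coe_smul])
        exact congrFun h1 r }
  let e : (DirectSum ℕ fun i => gr i) ≃ₗ[K] V :=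
    LinearEquiv.ofBijective (DirectSum.coeLinearMap gr) H.int
  refine ⟨fun r => (DirectSum.toModule K ℕ V (fun i => cc r i)) ∘ₗ e.symm.toLinearMap,
    fun i x hx => ?_⟩
  have h1 : e.symm x = DirectSum.lof K ℕ (fun i => gr i) i ⟨x, hx⟩ := by
    rw [LinearEquiv.symm_apply_eq]
    show x = DirectSum.coeLinearMap gr _
    rw [DirectSum.coeLinearMap_lof]
  have h2 : ∀ r, ((DirectSum.toModule K ℕ V (fun i => cc r i)) ∘ₗ e.symm.toLinearMap) x =
      A i ⟨x, hx⟩ r := by
    intro r
    rw [LinearMap.comp_apply, LinearEquiv.coe_coe, h1, DirectSum.toModule_lof]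
    rfl
  simp only [h2]
  exact ⟨hA1 i ⟨x, hx⟩, hA2 i ⟨x, hx⟩⟩

end Pool.Agent.N700.HR
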